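import Pool.Agent.Helper29.MS.L2
import Pool.Agent.Helper29.MS.EinL2
import Pool.Agent.Helper16.OM.Order

/-!
CR, C9: reduction of order `r` to order zero in the mean square estimate of Cramer's order, as
`l2_order` in Helper29/MS/Red.lean. `core` takes the case of order zero (C8) as a hypothesis.
-/

set_option autoImplicit false

namespace Pool.Agent.Helper58.CR

open Complex Filter Topology MeasureTheory Set Metric
open Pool.Agent.Helper13.Bsd Pool.Agent.Helper7.GW Pool.Agent.Helper58.BSD Pool.Agent.Helper29.MS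

variable {v : ℝ → ℝ} {G : ℂ → ℂ} {A a η B c : ℝ} {k : ℕ}

private theorem lapInt_of_grow' (h : Grow v A a) {x : ℝ} (hx : a < x) : LapInt v x := by
  unfold LapInt
  have h1 : IntegrableOn (fun t : ℝ => A * Real.exp (-(x - a) * t)) (Ioi (0 : ℝ)) :=
    (exp_neg_integrableOn_Ioi 0 (sub_pos.2 hx)).const_mul A
  refine Integrable.mono' h1 ?_ ?_
  · exact (h.meas.mul (Real.measurable_exp.comp (measurable_const.mul measurable_id))).aestronglyMeasurable
  · rw [ae_restrict_iff' measurableSet_Ioi]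
    refine Eventually.of_forall fun t ht => ?_
    have ht0 : 0 < t := ht
    rw [norm_mul, Real.norm_eq_abs, Real.norm_eq_abs, abs_of_pos (Real.exp_pos _)]
    calc |v t| * Real.exp (-x * t) ≤ (A * Real.exp (a * t)) * Real.exp (-x * t) :=
          mul_le_mul_of_nonneg_right (h.bd t ht0) (Real.exp_pos _).le
      _ = A * Real.exp (-(x - a) * t) := by
          rw [mul_assoc, ← Real.exp_add]
          congr 2
          ring

theorem cramer_order_core
    (hcz : ∀ {v : ℝ → ℝ} {G : ℂ → ℂ} {A a η B c : ℝ} {k : ℕ}, Frame v G A a η B c k →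
      ∃ K : ℝ, 0 ≤ K ∧ ∀ T : ℝ, 1 ≤ T → IntegrableOn (fun t => (t * (v t - kap G)) ^ 2) (Ioc 0 T) ∧
        ∫ t in Ioc 0 T, (t * (v t - kap G)) ^ 2 ≤ K * T)
    (hS : Setup v G A a η) (r : ℕ) (g : ℝ) (hg0 : 0 < g)
    (hg : Tendsto (fun y : ℝ => ‖G (y : ℂ)‖ / y ^ r) (𝓝[>] 0) (𝓝 g))
    (hrh : ∀ s : ℂ, 0 < s.re → G s ≠ 0)
    (hgr : ∀ s : ℂ, -η < s.re → ‖G s‖ ≤ B * (1 + ‖s‖) ^ k)
    (hr : ∀ s : ℂ, c ≤ s.re → ‖s * Lap v s‖ ≤ B) :
    ∃ K : ℝ, 0 ≤ K ∧ ∀ T : ℝ, 1 ≤ T →
      IntegrableOn (fun t => (t * (v t - r * Real.log t - (r * Real.eulerMascheroniConstant - Real.log g))) ^ 2)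
        (Ioc 1 T) ∧
      ∫ t in Ioc 1 T, (t * (v t - r * Real.log t - (r * Real.eulerMascheroniConstant - Real.log g))) ^ 2 ≤ K * T := by
  obtain ⟨G1, hG1, hfac, hG10⟩ := factor_order hS r g hg0 hg
  have hS0 := setup_reduce hS r G1 hG1 hfac
  have hη := hS.hη
  have ha := hS.grow.ha
  have h0 : (fun s => G1 s * (1 + s) ^ r) (0 : ℂ) ≠ 0 := by
    simp only [add_zero, one_pow, mul_one]
    rw [← norm_pos_iff, hG10]
    exact hg0
  have hkap : kap (fun s => G1 s * (1 + s) ^ r) = -Real.log g := by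
    unfold kap
    simp only [add_zero, one_pow, mul_one]
    rw [hG10]
  obtain ⟨C, hC0, hC⟩ := lap_ein_bdd
  have hB0 : 0 ≤ B := by
    have h1 := hgr 0 (by rw [zero_re]; linarith)
    rw [norm_zero, add_zero, one_pow, mul_one] at h1
    exact (norm_nonneg _).trans h1
  -- the bound on the closed ball
  obtain ⟨M, hM⟩ : ∃ M : ℝ, ∀ s ∈ closedBall (0 : ℂ) (η / 2), ‖G1 s * (1 + s) ^ r‖ ≤ M := by
    have hsub : closedBall (0 : ℂ) (η / 2) ⊆ {s : ℂ | -η < s.re} := by
      intro s hs
      rw [mem_closedBall_zero_iff] at hs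
      have h1 := abs_re_le_norm s
      have h2 := neg_abs_le s.re
      show -η < s.re
      linarith
    have hcont : ContinuousOn (fun s => G1 s * (1 + s) ^ r) (closedBall (0 : ℂ) (η / 2)) :=
      (hG1.continuousOn.mono hsub).mul (by fun_prop)
    exact (isCompact_closedBall (0 : ℂ) (η / 2)).exists_bound_of_continuousOn hcont
  have hr0 : (0 : ℝ) ≤ r := Nat.cast_nonneg r
  have hq0 : 0 ≤ B * (2 / η) ^ r := by positivity
  have hrC : 0 ≤ (r : ℝ) * C := by positivity
  set B' : ℝ := 1 + |M| + B * (2 / η) ^ r + (B + r * C) with hB'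
  have habs := abs_nonneg M
  have hF : Frame (fun t => v t - r * ein t) (fun s => G1 s * (1 + s) ^ r) (A + r) (a + 1) η B'
      (max c (a + 2)) (k + r) := by
    refine ⟨hS0, h0, ?_, by rw [hB']; linarith, ?_, ?_, ?_, ?_⟩
    · intro s hs
      have h1 := hrh s hs
      have h2 := hfac s (by linarith)
      rw [h2] at h1
      have h3 : (1 : ℂ) + s ≠ 0 := by
        intro h
        have := congrArg Complex.re h
        simp at this
        linarith
      exact mul_ne_zero (right_ne_zero_of_mul h1) (pow_ne_zero _ h3)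
    · intro s hs
      have hge : (1 : ℝ) ≤ (1 + ‖s‖) ^ (k + r) :=
        one_le_pow₀ (by linarith [norm_nonneg s])
      by_cases hb : ‖s‖ ≤ η / 2
      · have h1 := hM s (by rw [mem_closedBall_zero_iff]; exact hb)
        have h2 : M ≤ B' := by
          have := le_abs_self M
          rw [hB']
          linarith
        have h3 : 0 ≤ B' := by rw [hB']; linarith
        calc ‖G1 s * (1 + s) ^ r‖ ≤ B' * 1 := by linarith
          _ ≤ B' * (1 + ‖s‖) ^ (k + r) := mul_le_mul_of_nonneg_left hge h3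
      · push Not at hb
        have hs0 : 0 < ‖s‖ := by linarith
        have h1 : ‖G1 s‖ ≤ B * (1 + ‖s‖) ^ k * (2 / η) ^ r := by
          have h2 := hgr s hs
          rw [hfac s hs, norm_mul, norm_pow] at h2
          have h3 : 1 ≤ ‖s‖ ^ r * (2 / η) ^ r := by
            rw [← mul_pow]
            apply one_le_pow₀
            rw [mul_div_assoc', le_div_iff₀ hη]
            linarith
          calc ‖G1 s‖ = ‖G1 s‖ * 1 := (mul_one _).symm
            _ ≤ ‖G1 s‖ * (‖s‖ ^ r * (2 / η) ^ r) := mul_le_mul_of_nonneg_left h3 (norm_nonneg _)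
            _ = ‖s‖ ^ r * ‖G1 s‖ * (2 / η) ^ r := by ring
            _ ≤ B * (1 + ‖s‖) ^ k * (2 / η) ^ r :=
                mul_le_mul_of_nonneg_right h2 (by positivity)
        have h4 : ‖(1 + s) ^ r‖ ≤ (1 + ‖s‖) ^ r := by
          rw [norm_pow]
          apply pow_le_pow_left₀ (norm_nonneg _)
          calc ‖1 + s‖ ≤ ‖(1 : ℂ)‖ + ‖s‖ := norm_add_le _ _
            _ = 1 + ‖s‖ := by rw [norm_one]
        rw [norm_mul]
        calc ‖G1 s‖ * ‖(1 + s) ^ r‖ ≤ (B * (1 + ‖s‖) ^ k * (2 / η) ^ r) * (1 + ‖s‖) ^ r :=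
              mul_le_mul h1 h4 (norm_nonneg _) (by positivity)
          _ = B * (2 / η) ^ r * (1 + ‖s‖) ^ (k + r) := by rw [pow_add]; ring
          _ ≤ B' * (1 + ‖s‖) ^ (k + r) := by
              apply mul_le_mul_of_nonneg_right _ (by positivity)
              rw [hB']
              linarith
    · have := le_max_right c (a + 2)
      linarith
    · have := le_max_right c (a + 2)
      linarith
    · intro s hs
      have hs1 : c ≤ s.re := (le_max_left _ _).trans hs
      have hs2 : a + 2 ≤ s.re := (le_max_right _ _).trans hs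
      have hw1 : a < s.re := by linarith
      have hw0 : 0 < s.re := by linarith
      have e1 : Lap (fun t => v t - r * ein t) s = Lap v s - r * Lap ein s := by
        have hm : Measurable fun t => (r : ℝ) * ein t := measurable_const.mul measurable_ein
        rw [Lap_sub hS.grow.meas hm
          (lapInt_of_grow' hS.grow hw1) ((lapInt_ein hw0).const_mul _), Lap_const_mul]
        push_cast
        rfl
      have e2 : s * Lap (fun t => v t - r * ein t) s = s * Lap v s - r * (s * Lap ein s) := by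
        rw [e1]; ring
      rw [e2]
      have h1 := hr s hs1
      have h2 := hC s (by linarith)
      calc ‖s * Lap v s - r * (s * Lap ein s)‖ ≤ ‖s * Lap v s‖ + ‖(r : ℂ) * (s * Lap ein s)‖ :=
            norm_sub_le _ _
        _ ≤ B + r * C := by
            rw [norm_mul (r : ℂ), Complex.norm_natCast]
            exact add_le_add h1 (mul_le_mul_of_nonneg_left h2 hr0)
        _ ≤ B' := by
            rw [hB']
            linarith
  obtain ⟨K0, hK0, hz⟩ := hcz hF
  rw [hkap] at hz
  have hr2 : (0 : ℝ) ≤ 2 * (r : ℝ) ^ 2 := by positivity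
  refine ⟨2 * K0 + 2 * (r : ℝ) ^ 2, by positivity, fun T hT => ?_⟩
  obtain ⟨h1, h2⟩ := hz T hT
  have hsub : Ioc (1 : ℝ) T ⊆ Ioc 0 T := Ioc_subset_Ioc_left zero_le_one
  have i1 : IntegrableOn (fun t => 2 * (t * (v t - r * ein t - -Real.log g)) ^ 2) (Ioc 1 T) :=
    (h1.mono_set hsub).const_mul 2
  have i2 : IntegrableOn (fun _ : ℝ => 2 * (r : ℝ) ^ 2) (Ioc 1 T) :=
    integrableOn_const (by rw [Real.volume_Ioc]; exact ENNReal.ofReal_ne_top)
  have i3 : IntegrableOn (fun t => 2 * (t * (v t - r * ein t - -Real.log g)) ^ 2 + 2 * (r : ℝ) ^ 2) (Ioc 1 T) :=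
    i1.add i2
  have hb : ∀ t ∈ Ioc (1 : ℝ) T,
      (t * (v t - r * Real.log t - (r * Real.eulerMascheroniConstant - Real.log g))) ^ 2 ≤
        2 * (t * (v t - r * ein t - -Real.log g)) ^ 2 + 2 * (r : ℝ) ^ 2 := by
    intro t ht
    have ht1 : 1 ≤ t := ht.1.le
    obtain ⟨e1, e2⟩ := Pool.Agent.Helper16.OM.EinL2_bounds ht1
    have e3 : t * Real.exp (-t) ≤ 1 := by
      have h5 : t ≤ Real.exp t := by linarith [Real.add_one_le_exp t]
      calc t * Real.exp (-t) ≤ Real.exp t * Real.exp (-t) :=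
            mul_le_mul_of_nonneg_right h5 (Real.exp_pos _).le
        _ = 1 := by rw [← Real.exp_add, add_neg_cancel, Real.exp_zero]
    set w := ein t - Real.log t - Real.eulerMascheroniConstant with hw
    have e4 : 0 ≤ t * w := mul_nonneg (by linarith) e1
    have e5 : t * w ≤ 1 := (mul_le_mul_of_nonneg_left e2 (by linarith)).trans e3
    have e6 : (t * w) ^ 2 ≤ 1 := pow_le_one₀ e4 e5
    have e : t * (v t - r * Real.log t - (r * Real.eulerMascheroniConstant - Real.log g)) =
        t * (v t - r * ein t - -Real.log g) + r * (t * w) := by rw [hw]; ring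
    rw [e]
    set p := t * (v t - r * ein t - -Real.log g) with hp
    have e7 : (r * (t * w)) ^ 2 ≤ (r : ℝ) ^ 2 := by
      rw [mul_pow]
      calc (r : ℝ) ^ 2 * (t * w) ^ 2 ≤ (r : ℝ) ^ 2 * 1 := mul_le_mul_of_nonneg_left e6 (by positivity)
        _ = (r : ℝ) ^ 2 := mul_one _
    nlinarith [sq_nonneg (p - r * (t * w))]
  have i4 : IntegrableOn (fun t => (t * (v t - r * Real.log t -
      (r * Real.eulerMascheroniConstant - Real.log g))) ^ 2) (Ioc 1 T) := by
    refine Integrable.mono' i3 ?_ ?_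
    · exact ((measurable_id.mul ((hS.grow.meas.sub (measurable_const.mul Real.measurable_log)).sub
        measurable_const)).pow_const 2).aestronglyMeasurable
    · rw [ae_restrict_iff' measurableSet_Ioc]
      refine Eventually.of_forall fun t ht => ?_
      rw [Real.norm_eq_abs, abs_of_nonneg (sq_nonneg _)]
      exact hb t ht
  refine ⟨i4, ?_⟩
  calc ∫ t in Ioc 1 T, (t * (v t - r * Real.log t - (r * Real.eulerMascheroniConstant - Real.log g))) ^ 2
      ≤ ∫ t in Ioc 1 T, (2 * (t * (v t - r * ein t - -Real.log g)) ^ 2 + 2 * (r : ℝ) ^ 2) :=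
        setIntegral_mono_on i4 i3 measurableSet_Ioc hb
    _ = 2 * (∫ t in Ioc 1 T, (t * (v t - r * ein t - -Real.log g)) ^ 2) + (T - 1) * (2 * (r : ℝ) ^ 2) := by
        rw [integral_add i1 i2, integral_const_mul, setIntegral_const, smul_eq_mul, measureReal_def,
          Real.volume_Ioc, ENNReal.toReal_ofReal (by linarith)]
    _ ≤ 2 * (K0 * T) + T * (2 * (r : ℝ) ^ 2) := by
        have e1 : ∫ t in Ioc 1 T, (t * (v t - r * ein t - -Real.log g)) ^ 2 ≤
            ∫ t in Ioc 0 T, (t * (v t - r * ein t - -Real.log g)) ^ 2 :=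
          setIntegral_mono_set h1 (ae_of_all _ fun t => sq_nonneg _) hsub.eventuallyLE
        have e2 : (T - 1) * (2 * (r : ℝ) ^ 2) ≤ T * (2 * (r : ℝ) ^ 2) :=
          mul_le_mul_of_nonneg_right (by linarith) hr2
        linarith
    _ = (2 * K0 + 2 * (r : ℝ) ^ 2) * T := by ring

end Pool.Agent.Helper58.CR
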