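import Pool.Agent.Helper58.CR.Defs

/-!
Finitary linear groups: the algebra of the operators `c + F`, `F` of finite rank, is locally
finite-dimensional.
-/

set_option autoImplicit false

namespace Pool.Agent.Helper58.CR

universe u v w

/-- groups of units of locally finite-dimensional algebras over fields -/
theorem inUnits_of_finite {K : Type u} [Field K] {A : Type w} [Ring A] [Algebra K A]
    (hA : ∀ s : Finset A, ∃ B : Subalgebra K A, Module.Finite K B ∧ ∀ a ∈ s, a ∈ B)
    {G : Type w} [Group G] (f : G →* Aˣ) (hf : Function.Injective f) : InUnits K G := by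
  refine ⟨A, inferInstance, inferInstance, fun s => ?_, f, hf⟩
  obtain ⟨B, hB, hs⟩ := hA s
  refine ⟨B, hB, Module.Free.of_divisionRing K B, ?_, hs⟩
  obtain ⟨p, hp⟩ := LinearMap.exists_leftInverse_of_injective B.val.toLinearMap
    (LinearMap.ker_eq_bot.2 Subtype.val_injective)
  exact ⟨p, fun b => LinearMap.congr_fun hp b⟩

section

variable {K : Type u} [Field K] {V : Type w} [AddCommGroup V] [Module K V]

private theorem fd_add {F F' : Module.End K V} (h : FiniteDimensional K (LinearMap.range F))
    (h' : FiniteDimensional K (LinearMap.range F')) :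
    FiniteDimensional K (LinearMap.range (F + F')) := by
  refine Submodule.finiteDimensional_of_le (S₂ := LinearMap.range F ⊔ LinearMap.range F') ?_
  rintro _ ⟨x, rfl⟩
  exact Submodule.add_mem_sup ⟨x, rfl⟩ ⟨x, rfl⟩

private theorem fd_mul_left {F : Module.End K V} (T : Module.End K V)
    (h : FiniteDimensional K (LinearMap.range F)) :
    FiniteDimensional K (LinearMap.range (T * F)) := by
  have h1 : LinearMap.range (T * F) = (LinearMap.range F).map T := LinearMap.range_comp F T
  rw [h1]
  infer_instance

private theorem fd_mul_right {F : Module.End K V} (T : Module.End K V)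
    (h : FiniteDimensional K (LinearMap.range F)) :
    FiniteDimensional K (LinearMap.range (F * T)) := by
  refine Submodule.finiteDimensional_of_le (S₂ := LinearMap.range F) ?_
  rintro _ ⟨x, rfl⟩
  exact ⟨T x, rfl⟩

/-- the operators `c + F`, `F` of finite rank -/
private def finAlg (K : Type u) [Field K] (V : Type w) [AddCommGroup V] [Module K V] :
    Subalgebra K (Module.End K V) where
  carrier := {T | ∃ c : K, FiniteDimensional K
    (LinearMap.range (T - algebraMap K (Module.End K V) c))}
  mul_mem' := by
    rintro T T' ⟨c, hc⟩ ⟨c', hc'⟩
    refine ⟨c * c', ?_⟩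
    have h : T * T' - algebraMap K (Module.End K V) (c * c') =
        (T - algebraMap K (Module.End K V) c) * T' +
          algebraMap K (Module.End K V) c * (T' - algebraMap K (Module.End K V) c') := by
      rw [map_mul]
      noncomm_ring
    rw [h]
    exact fd_add (fd_mul_right _ hc) (fd_mul_left _ hc')
  add_mem' := by
    rintro T T' ⟨c, hc⟩ ⟨c', hc'⟩
    refine ⟨c + c', ?_⟩
    have h : T + T' - algebraMap K (Module.End K V) (c + c') =
        (T - algebraMap K (Module.End K V) c) + (T' - algebraMap K (Module.End K V) c') := by
      rw [map_add]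
      abel
    rw [h]
    exact fd_add hc hc'
  algebraMap_mem' := by
    intro c
    refine ⟨c, ?_⟩
    rw [sub_self, LinearMap.range_zero]
    infer_instance

private theorem finAlg_finite (s : Finset (finAlg K V)) :
    ∃ B : Subalgebra K (finAlg K V), Module.Finite K B ∧ ∀ a ∈ s, a ∈ B := by
  classical
  have h1 : ∀ a : s, ∃ c : K, FiniteDimensional K
      (LinearMap.range ((a.1 : Module.End K V) - algebraMap K (Module.End K V) c)) :=
    fun a => a.1.2
  choose c hc using h1
  let F : s → Module.End K V := fun a => (a.1 : Module.End K V) -
    algebraMap K (Module.End K V) (c a)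
  have hF : ∀ a, FiniteDimensional K (LinearMap.range (F a)) := hc
  let Φ : V →ₗ[K] (∀ a : s, LinearMap.range (F a)) := LinearMap.pi fun a => (F a).rangeRestrict
  let W : Submodule K V := ⨆ a, LinearMap.range (F a)
  have hW : FiniteDimensional K W := Submodule.finiteDimensional_iSup _
  have hN : FiniteDimensional K (V ⧸ LinearMap.ker Φ) :=
    Φ.quotKerEquivRange.symm.finiteDimensional
  let B : Subalgebra K (finAlg K V) :=
    { carrier := {T | ∃ c : K, (∀ x, ((T : Module.End K V) - algebraMap K (Module.End K V) c) x ∈ W) ∧
        ∀ x, Φ x = 0 → ((T : Module.End K V) - algebraMap K (Module.End K V) c) x = 0}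
      mul_mem' := by
        rintro T T' ⟨c, h1, h2⟩ ⟨c', h1', h2'⟩
        have h : ((T * T' : finAlg K V) : Module.End K V) -
            algebraMap K (Module.End K V) (c * c') =
            ((T : Module.End K V) - algebraMap K (Module.End K V) c) *
              ((T' : Module.End K V) - algebraMap K (Module.End K V) c') +
            (c' • ((T : Module.End K V) - algebraMap K (Module.End K V) c) +
              c • ((T' : Module.End K V) - algebraMap K (Module.End K V) c')) := by
          have e1 : algebraMap K (Module.End K V) c' * (T : Module.End K V) =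
              (T : Module.End K V) * algebraMap K (Module.End K V) c' := Algebra.commutes c' _
          have e2 : algebraMap K (Module.End K V) c' * algebraMap K (Module.End K V) c =
              algebraMap K (Module.End K V) c * algebraMap K (Module.End K V) c' :=
            Algebra.commutes c' _
          rw [map_mul, Algebra.smul_def, Algebra.smul_def, sub_mul, mul_sub, mul_sub, mul_sub,
            e1, e2]
          show (T : Module.End K V) * (T' : Module.End K V) - _ = _
          abel
        refine ⟨c * c', fun x => ?_, fun x hx => ?_⟩
        · rw [h, LinearMap.add_apply, LinearMap.add_apply, LinearMap.smul_apply,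
            LinearMap.smul_apply]
          exact W.add_mem (h1 _) (W.add_mem (W.smul_mem _ (h1 x)) (W.smul_mem _ (h1' x)))
        · rw [h, LinearMap.add_apply, LinearMap.add_apply, LinearMap.smul_apply,
            LinearMap.smul_apply, h2 x hx, h2' x hx, Module.End.mul_apply, h2' x hx, map_zero,
            smul_zero, smul_zero, add_zero, add_zero]
      add_mem' := by
        rintro T T' ⟨c, h1, h2⟩ ⟨c', h1', h2'⟩
        have h : ((T + T' : finAlg K V) : Module.End K V) -
            algebraMap K (Module.End K V) (c + c') =
            ((T : Module.End K V) - algebraMap K (Module.End K V) c) +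
              ((T' : Module.End K V) - algebraMap K (Module.End K V) c') := by
          rw [map_add]
          show (T : Module.End K V) + (T' : Module.End K V) - _ = _
          abel
        refine ⟨c + c', fun x => ?_, fun x hx => ?_⟩
        · rw [h, LinearMap.add_apply]
          exact W.add_mem (h1 x) (h1' x)
        · rw [h, LinearMap.add_apply, h2 x hx, h2' x hx, add_zero]
      algebraMap_mem' := by
        intro c
        have h : ((algebraMap K (finAlg K V) c : finAlg K V) : Module.End K V) -
            algebraMap K (Module.End K V) c = 0 := sub_self _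
        refine ⟨c, fun x => ?_, fun x _ => ?_⟩
        · rw [h]
          exact W.zero_mem
        · rw [h]
          rfl }
  refine ⟨B, ?_, ?_⟩
  · let L : (K × ((V ⧸ LinearMap.ker Φ) →ₗ[K] W)) →ₗ[K] Module.End K V :=
      { toFun := fun p => algebraMap K (Module.End K V) p.1 +
          W.subtype ∘ₗ p.2 ∘ₗ (LinearMap.ker Φ).mkQ
        map_add' := by
          intro p q
          ext x
          simp [Algebra.algebraMap_eq_smul_one, add_smul]
          abel
        map_smul' := by
          intro a p
          ext x
          simp [Algebra.algebraMap_eq_smul_one, mul_smul] }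
    have hL : FiniteDimensional K (LinearMap.range L) := inferInstance
    have hle : ∀ T : B, ((T : finAlg K V) : Module.End K V) ∈ LinearMap.range L := by
      rintro ⟨T, c, h1, h2⟩
      let g : V →ₗ[K] W := LinearMap.codRestrict W
        ((T : Module.End K V) - algebraMap K (Module.End K V) c) h1
      refine ⟨(c, (LinearMap.ker Φ).liftQ g ?_), ?_⟩
      · intro x hx
        exact Subtype.ext (h2 x hx)
      · ext x
        simp [L, g]
    let i : B →ₗ[K] LinearMap.range L :=
      LinearMap.codRestrict _ ((finAlg K V).val.toLinearMap ∘ₗ B.val.toLinearMap) hle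
    refine Module.Finite.of_injective i ?_
    intro x y hxy
    have h1 : ((x : finAlg K V) : Module.End K V) = ((y : finAlg K V) : Module.End K V) :=
      congrArg (fun z : LinearMap.range L => (z : Module.End K V)) hxy
    exact Subtype.ext (Subtype.ext h1)
  · intro a ha
    refine ⟨c ⟨a, ha⟩, fun x => ?_, fun x hx => ?_⟩
    · exact Submodule.mem_iSup_of_mem (⟨a, ha⟩ : s) ⟨x, rfl⟩
    · exact congrArg Subtype.val (congrFun hx (⟨a, ha⟩ : s))

/-- finitary linear groups -/
theorem inUnits_of_finitary {G : Type w} [Group G] (f : G →* Module.End K V)
    (hf : Function.Injective f)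
    (hfin : ∀ g, ∃ W : Submodule K V, FiniteDimensional K W ∧ ∀ x, f g x - x ∈ W) :
    InUnits K G := by
  have hmem : ∀ g, f g ∈ finAlg K V := by
    intro g
    obtain ⟨W, hW, h⟩ := hfin g
    refine ⟨1, ?_⟩
    rw [map_one]
    refine Submodule.finiteDimensional_of_le (S₂ := W) ?_
    rintro _ ⟨x, rfl⟩
    exact h x
  let F : G →* finAlg K V :=
    { toFun := fun g => ⟨f g, hmem g⟩
      map_one' := Subtype.ext (map_one f)
      map_mul' := fun g h => Subtype.ext (map_mul f g h) }
  refine inUnits_of_finite finAlg_finite F.toHomUnits ?_
  intro g h hgh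
  have h1 : ((F.toHomUnits g : (finAlg K V)ˣ) : finAlg K V) = (F.toHomUnits h : (finAlg K V)ˣ) := by
    rw [hgh]
  have h2 : f g = f h := congrArg Subtype.val h1
  exact hf h2

end

end Pool.Agent.Helper58.CR
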