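import Pool.Agent.Helper58.CR.RUnits
import Pool.Agent.Helper58.CR.Finitary
import Pool.Agent.Helper58.AR.Over
import Pool.Agent.Helper64.TS.RMain
import Pool.Agent.Helper64.CX.Finitary

/-!
Assembly: the statement in terms of the definitions in `Defs.lean`.
-/

set_option autoImplicit false

namespace Pool.Agent.Helper58.CR

open Pool.Agent.Helper65.TH Pool.Agent.Helper65.GN Pool.Agent.Helper64.TS Pool.Agent.Helper58.GI

universe u v w x

theorem thin_of_inUnits {K : Type u} [Field K] (hK : SmallField K) {G : Type w} [Group G]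
    (h : InUnits K G) (T : Finset G) : ∃ N, Thin (Subgroup.closure (T : Set G)) N := by
  obtain ⟨A, i1, i2, hA, f, hf⟩ := h
  refine Pool.Agent.Helper58.LU.thin_of_inUnits
    ⟨K, inferInstance, A, i1, i2, hK, fun s => ?_, f, hf⟩ T
  obtain ⟨B, h1, _, _, h4⟩ := hA s
  exact ⟨B, h1, h4⟩

theorem thin_of_over {G : Type w} [Group G] (T : Finset G)
    (h : LinearOver.{u} T ∨ UniformOver T) : ∃ N, Thin (Subgroup.closure (T : Set G)) N := by
  rcases h with h | h
  · exact Pool.Agent.Helper58.LU.thin_of_linearOver T h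
  · exact Pool.Agent.Helper58.LU.thin_of_uniformOver T h

theorem InUnits.comp {R : Type u} [CommRing R] {G H : Type w} [Group G] [Group H]
    (h : InUnits R H) (f : G →* H) (hf : Function.Injective f) : InUnits R G := by
  obtain ⟨A, i1, i2, hA, f', hf'⟩ := h
  exact ⟨A, i1, i2, hA, f'.comp f, hf'.comp hf⟩

private theorem ker_range {G : Type v} [Group G] {n : ℕ} {H : Fin n → Type w}
    [∀ i, Group (H i)] (φ : ∀ i, G →* H i)
    (hker : ∀ T : Finset G,
      {g : G | g ∈ Subgroup.closure (T : Set G) ∧ ∀ i, φ i g = 1}.Finite) (T : Finset G) :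
    {g : G | g ∈ Subgroup.closure (T : Set G) ∧ ∀ i, (φ i).rangeRestrict g = 1}.Finite := by
  refine (hker T).subset ?_
  rintro g ⟨hg, hg1⟩
  refine ⟨hg, fun i => ?_⟩
  have := congrArg Subtype.val (hg1 i)
  exact this

theorem apc_of_homs {G : Type v} [Group G] [MetricSpace G] (hG : ProperInvariant G) {n : ℕ}
    {H : Fin n → Type w} [∀ i, Group (H i)] (φ : ∀ i, G →* H i)
    (h : ∀ i, (∃ (R : Type u) (_ : CommRing R), InUnits R (H i)) ∨
      ∀ T : Finset (H i), LinearOver.{u} T ∨ UniformOver T)
    (hker : ∀ T : Finset G,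
      {g : G | g ∈ Subgroup.closure (T : Set G) ∧ ∀ i, φ i g = 1}.Finite) : APC G := by
  have hc : Countable G := countable_of_proper hG.2
  have key : ∀ i, ApcC (φ i).range := by
    intro i
    have hc : Countable (φ i).range :=
      Function.Surjective.countable (MonoidHom.rangeRestrict_surjective (φ i))
    rcases h i with ⟨R, _, h1⟩ | h3
    · obtain ⟨D⟩ := ringData_of_inUnits (h1.comp (φ i).range.subtype
        (φ i).range.subtype_injective)
      exact D.apcC
    · exact ((twoStage_of_thin fun T => thin_of_over T (h3 T)).of_injective (φ i).range.subtype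
        (φ i).range.subtype_injective).apcC
  have h2 : ApcC G := apcC_of_homs (fun i => (φ i).rangeRestrict) key (ker_range φ hker)
  exact apc_of_apcC hG.1 hG.2 h2

theorem twoRadii_of_homs {G : Type v} [Group G] [MetricSpace G] (hG : ProperInvariant G) {n : ℕ}
    {H : Fin n → Type w} [∀ i, Group (H i)] (φ : ∀ i, G →* H i)
    (h : ∀ i, (∃ (R : Type u) (_ : CommRing R), IsReduced R ∧ InUnits R (H i)) ∨
      ∀ T : Finset (H i), LinearOver.{u} T ∨ UniformOver T)
    (hker : ∀ T : Finset G,
      {g : G | g ∈ Subgroup.closure (T : Set G) ∧ ∀ i, φ i g = 1}.Finite) : TwoRadiiAPC G := by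
  have hc : Countable G := countable_of_proper hG.2
  have key : ∀ i, TwoStage (φ i).range := by
    intro i
    have hc : Countable (φ i).range :=
      Function.Surjective.countable (MonoidHom.rangeRestrict_surjective (φ i))
    rcases h i with ⟨R, _, hR, h1⟩ | h3
    · obtain ⟨D⟩ := ringData_of_inUnits (h1.comp (φ i).range.subtype
        (φ i).range.subtype_injective)
      exact D.twoStage
    · exact (twoStage_of_thin fun T => thin_of_over T (h3 T)).of_injective (φ i).range.subtype
        (φ i).range.subtype_injective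
  have h2 : TwoStage G := TwoStage.of_homs (fun i => (φ i).rangeRestrict) key (ker_range φ hker)
  obtain ⟨N, n, hn⟩ := apc_of_twoStage hG.1 hG.2 h2
  exact ⟨N, n, fun R hR hmono => hn R hR hmono⟩

/-- groups acting on free modules -/
theorem apc_of_free {R : Type u} [CommRing R] {G : Type v} [Group G] [MetricSpace G]
    (hG : ProperInvariant G) (h : FreeAction.{u, v, w} R G) :
    APC G ∧ (IsReduced R → TwoRadiiAPC G) := by
  obtain ⟨M, X, _, _, b, f, hf, hfin⟩ := h
  have hc : Countable G := countable_of_proper hG.2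
  let f' : G →* (M ≃ₗ[R] M) :=
    (LinearMap.GeneralLinearGroup.generalLinearEquiv R M).toMonoidHom.comp f.toHomUnits
  have h0 : ∀ g x, f' g x = f g x := fun _ _ => rfl
  have hf' : Function.Injective f' := by
    intro g g' hgg
    apply hf
    ext x
    rw [← h0, ← h0, hgg]
  have hfin' : ∀ g, {t | f' g (b t) ≠ b t}.Finite := hfin
  refine ⟨apc_of_apcC hG.1 hG.2 (apcC_of_free b f' hf' hfin'), fun hR => ?_⟩
  obtain ⟨D⟩ := ringData_of_free b f' hf' hfin'
  obtain ⟨N, n, hn⟩ := D.families hG.1 hG.2
  exact ⟨N, n, fun R hR hmono => hn R hR hmono⟩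

open Classical in
/-- the criterion for a bound in terms of the first radius -/
theorem uniform_of_homs {G : Type v} [Group G] [MetricSpace G] (hG : ProperInvariant G)
    (h : ∀ T : Finset G, ∃ (n : ℕ) (H : Fin n → Type w) (_ : ∀ i, Group (H i))
      (φ : ∀ i, G →* H i),
        (∀ i, (∃ (K : Type u) (_ : Field K), SmallField K ∧ InUnits K (H i)) ∨
          LinearOver.{u} (T.image (φ i)) ∨ UniformOver (T.image (φ i))) ∧
          {g : G | g ∈ Subgroup.closure (T : Set G) ∧ ∀ i, φ i g = 1}.Finite) :
    UniformAPC G := by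
  refine conclusion_of_closure hG.1 hG.2 fun T => ?_
  obtain ⟨n, H, _, φ, h1, h2⟩ := h T
  refine thin_of_homs T φ (fun i => ?_) h2
  rcases h1 i with ⟨K, _, hK, h3⟩ | h3
  · exact thin_of_inUnits hK h3 _
  · exact thin_of_over _ h3

/-- finitary linear groups -/
theorem apc_of_finitary {K : Type u} [Field K] {G : Type v} [Group G] [MetricSpace G]
    (hG : ProperInvariant G) (h : Finitary.{u, v, w} K G) :
    TwoRadiiAPC G ∧ (SmallField K → UniformAPC G) := by
  obtain ⟨V, _, _, f, hf, hfin⟩ := h
  let f' : G →* (Module.End K V)ˣ := f.toHomUnits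
  have hf' : Function.Injective f' := by
    intro g g' hgg
    exact hf (congrArg (fun u : (Module.End K V)ˣ => (u : Module.End K V)) hgg)
  have h1 : InUnits K f'.range := by
    refine inUnits_of_finitary ((Units.coeHom (Module.End K V)).comp f'.range.subtype) ?_ ?_
    · intro x y hxy
      exact Subtype.ext (Units.ext hxy)
    · rintro ⟨_, g, rfl⟩
      exact hfin g
  have hker : ∀ T : Finset G, {g : G | g ∈ Subgroup.closure (T : Set G) ∧
      ∀ _ : Fin 1, f'.rangeRestrict g = 1}.Finite := by
    intro T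
    refine (Set.finite_singleton 1).subset ?_
    rintro g ⟨_, hg⟩
    have h2 : f' g = 1 := congrArg Subtype.val (hg 0)
    exact hf' (h2.trans (map_one f').symm)
  refine ⟨?_, fun hK => ?_⟩
  · exact twoRadii_of_homs.{u} hG (H := fun _ : Fin 1 => f'.range) (fun _ => f'.rangeRestrict)
      (fun _ => Or.inl ⟨K, inferInstance, inferInstance, h1⟩) hker
  · exact uniform_of_homs.{u} hG fun T => ⟨1, fun _ => f'.range, fun _ => inferInstance,
      fun _ => f'.rangeRestrict, fun _ => Or.inl ⟨K, inferInstance, hK, h1⟩, hker T⟩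

/-- Coxeter groups of infinite rank -/
theorem uniform_coxeter {B : Type w} (M : CoxeterMatrix B) [MetricSpace M.Group]
    (hG : ProperInvariant M.Group) : UniformAPC M.Group := by
  obtain ⟨A, _, _, hA, f, hf⟩ := Pool.Agent.Helper64.CX.coxeter_inUnits M
  have h1 : InUnits Pool.Agent.Helper64.CX.RA M.Group := inUnits_of_finite hA f hf
  have h2 : SmallField Pool.Agent.Helper64.CX.RA :=
    Or.inr ⟨inferInstance, Pool.Agent.Helper64.CX.isAlgebraic_RA⟩
  refine uniform_of_homs.{0} hG fun T => ⟨1, fun _ => M.Group, fun _ => inferInstance,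
    fun _ => MonoidHom.id _, fun _ => Or.inl ⟨_, inferInstance, h2, h1⟩, ?_⟩
  refine (Set.finite_singleton 1).subset ?_
  rintro g ⟨_, hg⟩
  exact hg 0

end Pool.Agent.Helper58.CR
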