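import Pool.Agent.Helper58.CR.Defs
import Pool.Agent.Helper64.TS.RDefs

/-!
Groups of units of algebras over a commutative ring each finite subset of which lies in a subalgebra which
is free of finite rank and a direct summand are directed unions of linear groups with polynomial
transition maps.
-/

set_option autoImplicit false

namespace Pool.Agent.Helper58.CR

open Pool.Agent.Helper64.TS

universe u w

/-- linear functions of the entries are polynomials -/
private theorem rPolyIn_of_linear {R : Type*} [CommRing R] {H : Type*} [Group H] {n m : ℕ}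
    (ρ : H →* GL (Fin n) R) (σ : H →* GL (Fin m) R)
    (L : Matrix (Fin n) (Fin n) R →ₗ[R] Matrix (Fin m) (Fin m) R)
    (h : ∀ h, (σ h : Matrix (Fin m) (Fin m) R) = L (ρ h : Matrix (Fin n) (Fin n) R)) :
    RPolyIn ρ σ := by
  classical
  refine ⟨fun a b => ∑ i, ∑ j, MvPolynomial.X (Sum.inl (i, j)) *
    MvPolynomial.C ((L (Matrix.single i j (1 : R))) a b), fun g a b => ?_⟩
  rw [h]
  have h2 := Matrix.matrix_eq_sum_single (ρ g : Matrix (Fin n) (Fin n) R)
  have h3 : L (ρ g : Matrix (Fin n) (Fin n) R) =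
      ∑ i, ∑ j, (ρ g : Matrix (Fin n) (Fin n) R) i j • L (Matrix.single i j (1 : R)) := by
    conv_lhs => rw [h2]
    rw [map_sum]
    refine Finset.sum_congr rfl fun i _ => ?_
    rw [map_sum]
    refine Finset.sum_congr rfl fun j _ => ?_
    rw [← map_smul, Matrix.smul_single, smul_eq_mul, mul_one]
  rw [h3, Matrix.sum_apply, map_sum]
  refine Finset.sum_congr rfl fun i _ => ?_
  rw [Matrix.sum_apply, map_sum]
  refine Finset.sum_congr rfl fun j _ => ?_
  rw [Matrix.smul_apply, smul_eq_mul, MvPolynomial.eval_mul, MvPolynomial.eval_X,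
    MvPolynomial.eval_C]
  rfl

/-- the units of a subalgebra -/
private def unitsIn {R : Type u} [CommRing R] {A : Type w} [Ring A] [Algebra R A]
    (B : Subalgebra R A) : Subgroup Aˣ where
  carrier := {x | (x : A) ∈ B ∧ ((x⁻¹ : Aˣ) : A) ∈ B}
  one_mem' := by
    refine ⟨?_, ?_⟩
    · rw [Units.val_one]
      exact B.one_mem
    · rw [inv_one, Units.val_one]
      exact B.one_mem
  mul_mem' := by
    rintro x y hx hy
    refine ⟨?_, ?_⟩
    · rw [Units.val_mul]
      exact B.mul_mem hx.1 hy.1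
    · rw [mul_inv_rev, Units.val_mul]
      exact B.mul_mem hy.2 hx.2
  inv_mem' := by
    rintro x hx
    refine ⟨hx.2, ?_⟩
    rw [inv_inv]
    exact hx.1

/-- the units of a subalgebra as units -/
private def toUnitsIn {R : Type u} [CommRing R] {A : Type w} [Ring A] [Algebra R A]
    (B : Subalgebra R A) : unitsIn B →* Bˣ where
  toFun h := ⟨⟨((h : Aˣ) : A), h.2.1⟩, ⟨(((h : Aˣ)⁻¹ : Aˣ) : A), h.2.2⟩,
    Subtype.ext (Units.mul_inv (h : Aˣ)), Subtype.ext (Units.inv_mul (h : Aˣ))⟩
  map_one' := Units.ext (Subtype.ext rfl)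
  map_mul' := fun _ _ => Units.ext (Subtype.ext rfl)

/-- the regular representation -/
private noncomputable def repOf {R : Type u} [CommRing R] {A : Type w} [Ring A] [Algebra R A]
    (B : Subalgebra R A) {d : ℕ} (e : Module.Basis (Fin d) R B) : unitsIn B →* GL (Fin d) R :=
  (Units.map ((Algebra.leftMulMatrix e : B →ₐ[R] Matrix (Fin d) (Fin d) R) :
    B →* Matrix (Fin d) (Fin d) R)).comp (toUnitsIn B)

private theorem repOf_apply {R : Type u} [CommRing R] {A : Type w} [Ring A] [Algebra R A]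
    (B : Subalgebra R A) {d : ℕ} (e : Module.Basis (Fin d) R B) (h : unitsIn B) :
    (repOf B e h : Matrix (Fin d) (Fin d) R) =
      Algebra.leftMulMatrix e ⟨((h : Aˣ) : A), h.2.1⟩ := rfl

/-- the matrix determines the element, linearly -/
private theorem exists_leftInv {R : Type u} [CommRing R] {B : Type w} [Ring B] [Algebra R B]
    {d : ℕ} (e : Module.Basis (Fin d) R B) :
    ∃ g : Matrix (Fin d) (Fin d) R →ₗ[R] B, ∀ x, g (Algebra.leftMulMatrix e x) = x := by
  classical
  refine ⟨{ toFun := fun M => e.equivFun.symm (Matrix.mulVec M (e.repr 1))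
            map_add' := fun M N => ?_
            map_smul' := fun c M => ?_ }, fun x => ?_⟩
  · rw [Matrix.add_mulVec, map_add]
  · rw [Matrix.smul_mulVec, map_smul, RingHom.id_apply]
  · show e.equivFun.symm (Matrix.mulVec (Algebra.leftMulMatrix e x) (e.repr 1)) = x
    rw [Algebra.leftMulMatrix_mulVec_repr, mul_one]
    exact e.equivFun.symm_apply_apply x

private theorem repOf_injective {R : Type u} [CommRing R] {A : Type w} [Ring A] [Algebra R A]
    (B : Subalgebra R A) {d : ℕ} (e : Module.Basis (Fin d) R B) :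
    Function.Injective (repOf B e) := by
  intro x y hxy
  have h1 : (repOf B e x : Matrix (Fin d) (Fin d) R) = repOf B e y := by rw [hxy]
  rw [repOf_apply, repOf_apply] at h1
  have h2 := Algebra.leftMulMatrix_injective e h1
  exact Subtype.ext (Units.ext (congrArg Subtype.val h2))

private theorem unitsIn_mono {R : Type u} [CommRing R] {A : Type w} [Ring A] [Algebra R A]
    {B B' : Subalgebra R A} (h : B ≤ B') : unitsIn B ≤ unitsIn B' :=
  fun _ hx => ⟨h hx.1, h hx.2⟩

private theorem rPolyLe_repOf {R : Type u} [CommRing R] {A : Type w} [Ring A] [Algebra R A]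
    {B B' : Subalgebra R A} (h : B ≤ B') (p : A →ₗ[R] B) (hp : ∀ b : B, p b = b) {d d' : ℕ}
    (e : Module.Basis (Fin d) R B) (e' : Module.Basis (Fin d') R B') :
    RPolyLe (repOf B e) (repOf B' e') := by
  obtain ⟨g, hg⟩ := exists_leftInv e
  obtain ⟨g', hg'⟩ := exists_leftInv e'
  refine ⟨unitsIn_mono h, ?_, ?_⟩
  · refine rPolyIn_of_linear _ _ ((Algebra.leftMulMatrix e').toLinearMap ∘ₗ
      (Subalgebra.inclusion h).toLinearMap ∘ₗ g) fun x => ?_
    have h1 : g (repOf B e x : Matrix (Fin d) (Fin d) R) = ⟨((x : Aˣ) : A), x.2.1⟩ := hg _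
    simp only [LinearMap.comp_apply]
    rw [h1]
    rfl
  · refine rPolyIn_of_linear _ _ ((Algebra.leftMulMatrix e).toLinearMap ∘ₗ
      (p ∘ₗ B'.val.toLinearMap) ∘ₗ g') fun x => ?_
    have h1 : g' (((repOf B' e').comp (Subgroup.inclusion (unitsIn_mono h))) x :
        Matrix (Fin d') (Fin d') R) = ⟨((x : Aˣ) : A), h x.2.1⟩ := hg' _
    simp only [LinearMap.comp_apply]
    rw [h1]
    have h2 : p (B'.val.toLinearMap ⟨((x : Aˣ) : A), h x.2.1⟩) = ⟨((x : Aˣ) : A), x.2.1⟩ :=
      hp ⟨((x : Aˣ) : A), x.2.1⟩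
    rw [h2]
    rfl

/-- a subalgebra with a basis in `B'` -/
private theorem le_of_basis {R : Type u} [CommRing R] {A : Type w} [Ring A] [Algebra R A]
    {B B' : Subalgebra R A} {d : ℕ} (e : Module.Basis (Fin d) R B)
    (h : ∀ i, (e i : A) ∈ B') : B ≤ B' := by
  intro a ha
  have h1 := e.sum_repr ⟨a, ha⟩
  have h2 : a = ∑ i, e.repr ⟨a, ha⟩ i • (e i : A) := by
    have h3 : ((⟨a, ha⟩ : B) : A) = ∑ i, e.repr ⟨a, ha⟩ i • (e i : A) := by
      conv_lhs => rw [← h1]
      rw [AddSubmonoidClass.coe_finsetSum]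
      rfl
    exact h3
  rw [h2]
  exact Subalgebra.sum_mem _ fun i _ => Subalgebra.smul_mem _ (h i) _

theorem ringData_of_inUnits {R : Type u} [CommRing R] {G : Type w} [Group G]
    (h : InUnits R G) : Nonempty (RingData R G) := by
  classical
  obtain ⟨A, _, _, hA, f, hf⟩ := h
  have hbas : ∀ B : {B : Subalgebra R A // Module.Finite R B ∧ Module.Free R B ∧
      ∃ p : A →ₗ[R] B, ∀ b : B, p b = b}, ∃ d : ℕ, Nonempty (Module.Basis (Fin d) R B.1) := by
    intro B
    have := B.2.1
    have := B.2.2.1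
    exact ⟨Fintype.card (Module.Free.ChooseBasisIndex R B.1),
      ⟨(Module.Free.chooseBasis R B.1).reindex (Fintype.equivFin _)⟩⟩
  choose d e using hbas
  have hle : ∀ B B' : {B : Subalgebra R A // Module.Finite R B ∧ Module.Free R B ∧
      ∃ p : A →ₗ[R] B, ∀ b : B, p b = b}, B.1 ≤ B'.1 →
      RPolyLe ((repOf B.1 (e B).some).comp (f.subgroupComap (unitsIn B.1)))
        ((repOf B'.1 (e B').some).comp (f.subgroupComap (unitsIn B'.1))) := by
    intro B B' hB
    obtain ⟨p, hp⟩ := B.2.2.2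
    obtain ⟨h1, ⟨P, hP⟩, ⟨Q, hQ⟩⟩ := rPolyLe_repOf hB p hp (e B).some (e B').some
    exact ⟨Subgroup.comap_mono h1, ⟨P, fun x => hP (f.subgroupComap (unitsIn B.1) x)⟩,
      ⟨Q, fun x => hQ (f.subgroupComap (unitsIn B.1) x)⟩⟩
  refine ⟨{
    ι := {B : Subalgebra R A // Module.Finite R B ∧ Module.Free R B ∧
      ∃ p : A →ₗ[R] B, ∀ b : B, p b = b}
    H := fun B => (unitsIn B.1).comap f
    n := d
    ρ := fun B => (repOf B.1 (e B).some).comp (f.subgroupComap (unitsIn B.1))
    inj := ?_
    cov := ?_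
    dir := ?_ }⟩
  · intro B x y hxy
    have h1 := repOf_injective B.1 (e B).some hxy
    exact Subtype.ext (hf (congrArg Subtype.val h1))
  · intro g
    obtain ⟨B, h1, h2, h3, hmem⟩ := hA {(f g : A), (((f g)⁻¹ : Aˣ) : A)}
    exact ⟨⟨B, h1, h2, h3⟩, hmem _ (by simp), hmem _ (by simp)⟩
  · intro B B'
    obtain ⟨C, h1, h2, h3, hmem⟩ := hA
      ((Finset.univ.image fun i => ((e B).some i : A)) ∪
        (Finset.univ.image fun i => ((e B').some i : A)))
    refine ⟨⟨C, h1, h2, h3⟩, hle _ _ (le_of_basis (e B).some fun i => ?_),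
      hle _ _ (le_of_basis (e B').some fun i => ?_)⟩
    · exact hmem _ (Finset.mem_union_left _ (Finset.mem_image.2 ⟨i, Finset.mem_univ _, rfl⟩))
    · exact hmem _ (Finset.mem_union_right _ (Finset.mem_image.2 ⟨i, Finset.mem_univ _, rfl⟩))

end Pool.Agent.Helper58.CR
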